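import Pool.Agent.H26.ES.Targets
import Pool.Agent.H84.LVP.RI

/-!
# Row RIP of est_modules (MP_e21eee_nt): stars which are not rich are rare
-/

set_option autoImplicit false

open Finset MeasureTheory

namespace Pool.Agent.H31.EST

open Pool.Agent.H24.CL Pool.Agent.H24.LV Pool.Agent.H84.LVP Pool.Agent.H26.ES

theorem SDatP_mono {k : ℕ} {S S' : Finset ℕ} {V : Set (X k)} {Ge : ℕ → Set (X k)}
    {Gd : ℕ → ℕ → Set (X k)} {P m τ Ω : ℝ} (h : SDatP k S V Ge Gd P m τ Ω) (hs : S' ⊆ S) :
    SDatP k S' V Ge Gd P m τ Ω where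
  hk := h.hk
  hP := h.hP
  hm := h.hm
  hτ := h.hτ
  hτ1 := h.hτ1
  hΩ := h.hΩ
  pr p hp := h.pr p (hs hp)
  mV := h.mV
  mE p hp := h.mE p (hs hp)
  mG p hp := h.mG p (hs hp)
  sub p hp := h.sub p (hs hp)
  invE p hp := h.invE p (hs hp)
  inv p hp := h.inv p (hs hp)
  uni p hp := h.uni p (hs hp)
  den p hp := h.den p (hs hp)
  fib2 p hp q hq := h.fib2 p (hs hp) q (hs hq)
  ms p hp := h.ms p (hs hp)

theorem meas_StarP {k : ℕ} (hMP : T_MP) {S : Finset ℕ} {V : Set (X k)} {Gd : ℕ → ℕ → Set (X k)}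
    (hS : ∀ p ∈ S, p.Prime) (hV : MeasurableSet V) (hG : ∀ p ∈ S, ∀ y, MeasurableSet (Gd p y))
    (x : ℕ) : MeasurableSet {b : X k | StarP S V Gd b x} :=
  meas_Star hMP hS hV (Gd := fun p => Gd p (x / (DS S / p))) (fun p hp => hG p hp _) x

/-- the sub-star of a star -/
theorem starP_sub {k : ℕ} (hCO : L_CO) {S : Finset ℕ} {q : ℕ} (hq : q ∉ S) {V : Set (X k)}
    {Gd : ℕ → ℕ → Set (X k)} (hqp : 1 ≤ q) {b : X k} {x : ℕ}
    (h : StarP (insert q S) V Gd b x) :
    StarP S V Gd (phi q (x % q) b) (x / q) ∧ phi (DS S) (x % DS S) b ∈ Gd q (x / DS S) := by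
  refine ⟨⟨?_, fun p hp => ?_⟩, ?_⟩
  · rw [hCO.1, Nat.mul_comm (DS S) q, ← DS_insert hq, Nat.mod_add_div]
    exact h.1
  · have h1 := h.2 p (Finset.mem_insert_of_mem hp)
    have e1 : DS (insert q S) / p = q * (DS S / p) := by
      rw [DS_insert hq, Nat.mul_div_assoc _ (dvd_DS hp)]
    rw [e1] at h1
    rw [hCO.1, Nat.mul_comm (DS S / p) q, ← Nat.mod_mul, Nat.div_div_eq_div_mul]
    exact h1
  · have h1 := h.2 q (Finset.mem_insert_self q S)
    have e1 : DS (insert q S) / q = DS S := by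
      rw [DS_insert hq, Nat.mul_div_cancel_left _ hqp]
    rwa [e1] at h1

/-- restriction of stars to a subset of the primes -/
theorem trP_it {k : ℕ} (hMP : T_MP) (hCO : L_CO) (hTR : T_TRP) {S' : Finset ℕ} {V : Set (X k)}
    {Ge : ℕ → Set (X k)} {Gd : ℕ → ℕ → Set (X k)} {P m τ Ω : ℝ} {T : X k → ℕ → Prop}
    (hT : ∀ x, MeasurableSet {b : X k | T b x}) (U : Finset ℕ) (hU : Disjoint S' U)
    (h : SDatP k (S' ∪ U) V Ge Gd P m τ Ω) :
    mass k (DS (S' ∪ U)) (fun b x => StarP (S' ∪ U) V Gd b x ∧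
        T (phi (DS (S' ∪ U) / DS S') (x % (DS (S' ∪ U) / DS S')) b)
          (x / (DS (S' ∪ U) / DS S'))) ≤ mass k (DS S') T := by
  induction U using Finset.induction_on with
  | empty =>
    have hp : ∀ p ∈ S', p.Prime := fun p hp => (h.pr p (Finset.mem_union_left _ hp)).1
    rw [Finset.union_empty, Nat.div_self (DS_pos hp)]
    refine mass_mono (fun x _ b hb => ?_)
    have := hb.2
    rwa [Nat.mod_one, phi_one, Nat.div_one] at this
  | insert q U hqU ih =>
    have hqS : q ∉ S' := fun hh => (Finset.disjoint_left.1 hU hh) (Finset.mem_insert_self _ _)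
    have hdis : Disjoint S' U := Finset.disjoint_of_subset_right (Finset.subset_insert _ _) hU
    have hq1 : q ∉ S' ∪ U := by
      rw [Finset.mem_union]
      exact fun hh => hh.elim hqS hqU
    have hun : S' ∪ insert q U = insert q (S' ∪ U) := Finset.union_insert _ _ _
    rw [hun] at h ⊢
    have h1 : SDatP k (S' ∪ U) V Ge Gd P m τ Ω := SDatP_mono h (Finset.subset_insert _ _)
    have hpr : ∀ p ∈ S' ∪ U, p.Prime := fun p hp => (h1.pr p hp).1
    have ih' := ih hdis h1
    have hqp : 1 ≤ q := (h.pr q (Finset.mem_insert_self _ _)).1.one_lt.le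
    set E := DS (S' ∪ U) / DS S' with hE
    have hEpos : 1 ≤ E := Nat.div_pos (Nat.le_of_dvd (DS_pos hpr) (DS_dvd
      Finset.subset_union_left)) (DS_pos (fun p hp => hpr p (Finset.mem_union_left _ hp)))
    have hdiv : DS (insert q (S' ∪ U)) / DS S' = q * E := DS_div hq1 Finset.subset_union_left
    rw [hdiv]
    have htr := hTR k (S' ∪ U) V Ge Gd P m τ Ω q hq1 h
      (fun b x => StarP (S' ∪ U) V Gd b x ∧ T (phi E (x % E) b) (x / E)) ?_
    · refine le_trans (le_trans (mass_mono (fun x _ b hb => ?_)) htr) ih'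
      obtain ⟨h2, h3⟩ := starP_sub hCO hq1 hqp hb.1
      refine ⟨⟨h2, ?_⟩, h3⟩
      rw [hCO.1, Nat.mul_comm E q, ← Nat.mod_mul, Nat.div_div_eq_div_mul]
      exact hb.2
    · intro x
      refine (meas_StarP hMP hpr h1.mV h1.mG x).inter ?_
      exact (hMP k E (x % E) hEpos).1.measurable (hT (x / E))

theorem meas_LonelyP {k : ℕ} (hMP : T_MP) {S : Finset ℕ} {q : ℕ} {V : Set (X k)}
    {Ge : ℕ → Set (X k)} {Gd : ℕ → ℕ → Set (X k)} {P m τ Ω kap : ℝ}
    (h : SDatP k (insert q S) V Ge Gd P m τ Ω) (x : ℕ) :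
    MeasurableSet {b : X k | LonelyP S q V Gd kap b x} := by
  classical
  have hpr : ∀ p ∈ insert q S, p.Prime := fun p hp => (h.pr p hp).1
  have hprS : ∀ p ∈ S, p.Prime := fun p hp => hpr p (Finset.mem_insert_of_mem hp)
  have hqp : 1 ≤ q := (hpr q (Finset.mem_insert_self _ _)).one_lt.le
  have hst := fun y => meas_StarP hMP hpr h.mV h.mG y
  have hhd : ∀ y, Measurable (fun b : X k => hd (DS S) V (phi q y b)) := fun y =>
    (meas_hd hMP (DS_pos hprS) h.mV).comp (hMP k q y hqp).1.measurable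
  have hset : {b : X k | LonelyP S q V Gd kap b x} = {b : X k | StarP (insert q S) V Gd b x} ∩
      {b : X k | (∑ z ∈ range q, if (StarP (insert q S) V Gd b (x % DS S + DS S * z) ∧
        hd (DS S) V (phi q (x % q) b) ≤
          hd (DS S) V (phi q ((x % DS S + DS S * z) % q) b)) then (1 : ℝ) else 0) < kap * q} := by
    ext b
    have e1 : (∑ z ∈ range q, if (StarP (insert q S) V Gd b (x % DS S + DS S * z) ∧
        hd (DS S) V (phi q (x % q) b) ≤
          hd (DS S) V (phi q ((x % DS S + DS S * z) % q) b)) then (1 : ℝ) else 0) =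
        (((range q).filter fun z => StarP (insert q S) V Gd b (x % DS S + DS S * z) ∧
          hd (DS S) V (phi q (x % q) b) ≤
          hd (DS S) V (phi q ((x % DS S + DS S * z) % q) b)).card : ℝ) := by
      rw [Finset.card_filter]
      push_cast
      rfl
    have e2 : b ∈ {b : X k | LonelyP S q V Gd kap b x} ↔ StarP (insert q S) V Gd b x ∧
        (((range q).filter fun z => StarP (insert q S) V Gd b (x % DS S + DS S * z) ∧
          hd (DS S) V (phi q (x % q) b) ≤
          hd (DS S) V (phi q ((x % DS S + DS S * z) % q) b)).card : ℝ) < kap * q := by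
      show LonelyP S q V Gd kap b x ↔ _
      unfold LonelyP
      refine and_congr Iff.rfl ?_
      have e3 : ∀ (s s' : Finset ℕ), s = s' → ((s.card : ℝ) < kap * q ↔ (s'.card : ℝ) < kap * q) := by
        intro s s' h
        rw [h]
      apply e3
      ext z
      simp only [Finset.mem_filter]
    rw [e2, ← e1]
    exact Iff.rfl
  rw [hset]
  refine (hst x).inter ?_
  refine measurableSet_lt ?_ measurable_const
  refine Finset.measurable_sum _ fun z _ => ?_
  refine Measurable.ite ?_ measurable_const measurable_const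
  exact (hst _).inter (measurableSet_le (hhd _) (hhd _))

/-- the sub-star is lonely with respect to its largest prime -/
def LT {k : ℕ} (T : Finset ℕ) (V : Set (X k)) (Gd : ℕ → ℕ → Set (X k)) (kap : ℝ) (b : X k)
    (x : ℕ) : Prop :=
  ∃ q ∈ T, (∀ p ∈ T, p ≤ q) ∧ LonelyP (T.erase q) q V Gd kap b x

theorem LT_empty {k : ℕ} {V : Set (X k)} {Gd : ℕ → ℕ → Set (X k)} {kap : ℝ} {b : X k}
    {x : ℕ} : ¬ LT ∅ V Gd kap b x := by
  rintro ⟨q, hq, -⟩
  exact absurd hq (Finset.notMem_empty q)

theorem LT_iff {k : ℕ} {T : Finset ℕ} {q : ℕ} (hq : q ∈ T) (hmax : ∀ p ∈ T, p ≤ q)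
    {V : Set (X k)} {Gd : ℕ → ℕ → Set (X k)} {kap : ℝ} {b : X k} {x : ℕ} :
    LT T V Gd kap b x ↔ LonelyP (T.erase q) q V Gd kap b x := by
  constructor
  · rintro ⟨q', hq', hmax', h⟩
    have : q' = q := le_antisymm (hmax q' hq') (hmax' q hq)
    rwa [this] at h
  · intro h
    exact ⟨q, hq, hmax, h⟩

theorem hd_one {k : ℕ} {V : Set (X k)} {b : X k} (h : b ∈ V) : hd 1 V b = 1 := by
  unfold hd
  have e2 : pos 1 V b = {0} := by
    ext c
    rw [mem_pos, Finset.mem_singleton]
    constructor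
    · intro hc
      have := mem_range.1 hc.1
      omega
    · rintro rfl
      refine ⟨by simp, ?_⟩
      rw [phi_one]
      exact h
  rw [e2]
  simp

/-- sub-stars of sub-stars -/
theorem starP_part {k : ℕ} (hCO : L_CO) {S' : Finset ℕ} {V : Set (X k)} {Ge : ℕ → Set (X k)}
    {Gd : ℕ → ℕ → Set (X k)} {P m τ Ω : ℝ} (U : Finset ℕ) (hU : Disjoint S' U)
    (h : SDatP k (S' ∪ U) V Ge Gd P m τ Ω) (b : X k) (x : ℕ)
    (hb : StarP (S' ∪ U) V Gd b x) : StarP S' V Gd
      (phi (DS (S' ∪ U) / DS S') (x % (DS (S' ∪ U) / DS S')) b) (x / (DS (S' ∪ U) / DS S')) := by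
  induction U using Finset.induction_on generalizing b x with
  | empty =>
    have hp : ∀ p ∈ S', p.Prime := fun p hp => (h.pr p (Finset.mem_union_left _ hp)).1
    rw [Finset.union_empty] at hb ⊢
    rwa [Nat.div_self (DS_pos hp), Nat.mod_one, phi_one, Nat.div_one]
  | insert q U hqU ih =>
    have hqS : q ∉ S' := fun hh => (Finset.disjoint_left.1 hU hh) (Finset.mem_insert_self _ _)
    have hdis : Disjoint S' U := Finset.disjoint_of_subset_right (Finset.subset_insert _ _) hU
    have hq1 : q ∉ S' ∪ U := by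
      rw [Finset.mem_union]
      exact fun hh => hh.elim hqS hqU
    have hun : S' ∪ insert q U = insert q (S' ∪ U) := Finset.union_insert _ _ _
    rw [hun] at h hb ⊢
    have hqp : 1 ≤ q := (h.pr q (Finset.mem_insert_self _ _)).1.one_lt.le
    have h3 := ih hdis (SDatP_mono h (Finset.subset_insert _ _)) _ _ (starP_sub hCO hq1 hqp hb).1
    rw [DS_div hq1 Finset.subset_union_left]
    rw [hCO.1, Nat.mul_comm _ q, ← Nat.mod_mul, Nat.div_div_eq_div_mul] at h3
    exact h3

theorem starP_subset {k : ℕ} (hCO : L_CO) {S S' : Finset ℕ} (hS' : S' ⊆ S) {V : Set (X k)}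
    {Ge : ℕ → Set (X k)} {Gd : ℕ → ℕ → Set (X k)} {P m τ Ω : ℝ}
    (h : SDatP k S V Ge Gd P m τ Ω) (b : X k) (x : ℕ) (hb : StarP S V Gd b x) :
    StarP S' V Gd (phi (DS S / DS S') (x % (DS S / DS S')) b) (x / (DS S / DS S')) := by
  have h5 := starP_part hCO (S \ S') Finset.disjoint_sdiff
    (by rw [Finset.union_sdiff_of_subset hS']; exact h) b x
    (by rw [Finset.union_sdiff_of_subset hS']; exact hb)
  rwa [Finset.union_sdiff_of_subset hS'] at h5

/-- a poor sub-star contains a lonely sub-star -/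
theorem poor_lonely {k : ℕ} (hCO : L_CO) (hNL : T_NLP) {S : Finset ℕ} {V : Set (X k)}
    {Ge : ℕ → Set (X k)} {Gd : ℕ → ℕ → Set (X k)} {P m τ Ω kap' : ℝ} (hkap0 : 0 < kap')
    (h : SDatP k S V Ge Gd P m τ Ω) (b : X k) (x : ℕ) (hx : x < DS S)
    (hb : StarP S V Gd b x) (S' : Finset ℕ) (hS' : S' ⊆ S)
    (hlt : hd (DS S') V (phi (DS S / DS S') (x % (DS S / DS S')) b) < kap' ^ S'.card * τ) :
    ∃ T ⊆ S, LT T V Gd kap' (phi (DS S / DS T) (x % (DS S / DS T)) b) (x / (DS S / DS T)) := by
  induction S' using Finset.induction_on_max with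
  | empty =>
    exfalso
    have e1 : DS ∅ = 1 := by unfold DS; exact Finset.prod_empty
    rw [e1, Nat.div_one, Finset.card_empty, pow_zero, one_mul, Nat.mod_eq_of_lt hx,
      hd_one hb.1] at hlt
    linarith [h.hτ1]
  | insert q S'' hmax ih =>
    have hq : q ∉ S'' := fun hh => lt_irrefl q (hmax q hh)
    have hS'' : S'' ⊆ S := le_trans (Finset.subset_insert _ _) hS'
    have h' : SDatP k (insert q S'') V Ge Gd P m τ Ω := SDatP_mono h hS'
    have hpr : ∀ p ∈ S, p.Prime := fun p hp => (h.pr p hp).1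
    have hqp : 1 ≤ q := (h'.pr q (Finset.mem_insert_self _ _)).1.one_lt.le
    set b' := phi (DS S / DS (insert q S'')) (x % (DS S / DS (insert q S''))) b with hb'
    set x' := x / (DS S / DS (insert q S'')) with hx'
    have hst : StarP (insert q S'') V Gd b' x' := starP_subset hCO hS' h b x hb
    by_cases hlo : LonelyP S'' q V Gd kap' b' x'
    · refine ⟨insert q S'', hS', ?_⟩
      rw [LT_iff (Finset.mem_insert_self q S'') ?_]
      · rwa [Finset.erase_insert hq]
      · intro p hp
        rcases Finset.mem_insert.1 hp with rfl | hp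
        · exact le_rfl
        · exact (hmax p hp).le
    · have hDq : 0 < DS (insert q S'') := DS_pos (fun p hp => hpr p (hS' hp))
      have hDS : DS (insert q S'') * (DS S / DS (insert q S'')) = DS S :=
        Nat.mul_div_cancel' (DS_dvd hS')
      have hx'lt : x' < DS (insert q S'') := by
        rw [hx']
        refine Nat.div_lt_of_lt_mul ?_
        rw [mul_comm, hDS]
        exact hx
      have h4 := hNL k S'' V Ge Gd P m τ Ω kap' q hq h' b' x' hx'lt hst hlo
      rw [Finset.card_insert_of_notMem hq, pow_succ', mul_assoc] at hlt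
      have h5 := lt_of_mul_lt_mul_left (lt_of_le_of_lt h4 hlt) hkap0.le
      refine ih hS'' ?_
      have e2 : DS S / DS S'' = (DS S / DS (insert q S'')) * q := by
        have hS''0 : 0 < DS S'' := DS_pos (fun p hp => hpr p (hS'' hp))
        refine Nat.div_eq_of_eq_mul_right hS''0 ?_
        rw [← hDS, Nat.mul_div_cancel_left _ hDq, DS_insert hq]
        ring
      have e3 : phi (DS S / DS S'') (x % (DS S / DS S'')) b = phi q (x' % q) b' := by
        rw [hb', hCO.1, e2, hx', Nat.mod_mul, Nat.mul_comm q]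
      rw [e3]
      exact h5

theorem pf_RIP (hMP : T_MP) (hLMP : T_LMP) (hNLP : T_NLP) (hTRP : T_TRP) (hCO : L_CO) :
    T_RIP := by
  intro k hk
  obtain ⟨C, hC, hLM⟩ := hLMP k hk
  refine ⟨C, hC, ?_⟩
  intro n S V Ge Gd P m τ Ω kap kap' hSn h hkap hkap1 hkap' hkap'1
  have hm0 : 0 < m := by linarith [h.hm]
  have hP0 : 0 < P := by linarith [h.hP]
  have hτ0 := h.hτ
  have hΩ := h.hΩ
  have hC0 : 0 < C := by linarith
  set L : ℝ := (n * (C * m ^ 3 / (kap ^ 3 * P)) + kap' + n * kap) * Ω with hL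
  have hL0 : 0 ≤ L := by positivity
  have hlone : ∀ T ⊆ S, mass k (DS T) (LT T V Gd kap') ≤ L := by
    intro T hT
    rcases T.eq_empty_or_nonempty with rfl | hne
    · have h0 : mass k (DS ∅) (LT ∅ V Gd kap') ≤
          mass k (DS ∅) (fun (_ : X k) (_ : ℕ) => False) :=
        mass_mono (fun x _ b hb => LT_empty hb)
      refine le_trans h0 ?_
      have h1 : mass k (DS ∅) (fun (_ : X k) (_ : ℕ) => False) = 0 := by
        unfold mass
        simp
      rw [h1]
      exact hL0
    · obtain ⟨q, hq, hmax⟩ := Finset.exists_max_image T id hne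
      have hins : insert q (T.erase q) = T := Finset.insert_erase hq
      have h1 := hLM (T.erase q) V Ge Gd P m τ Ω kap kap' q (Finset.notMem_erase q T)
        (by rw [hins]; exact SDatP_mono h hT) hkap hkap1 hkap'
      rw [hins] at h1
      refine le_trans (mass_mono (fun x _ b hb => (LT_iff hq hmax).1 hb)) (le_trans h1 ?_)
      have hr : ((T.erase q).card : ℝ) ≤ n := by
        have : (T.erase q).card ≤ n := by
          rw [← hSn]
          exact Finset.card_le_card ((Finset.erase_subset _ _).trans hT)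
        exact_mod_cast this
      rw [hL]
      refine mul_le_mul_of_nonneg_right ?_ hΩ
      have e1 : 0 ≤ C * m ^ 3 / (kap ^ 3 * P) := by positivity
      have e2 : ((T.erase q).card : ℝ) * (C * m ^ 3 / (kap ^ 3 * P)) ≤
        n * (C * m ^ 3 / (kap ^ 3 * P)) := mul_le_mul_of_nonneg_right hr e1
      have e3 : ((T.erase q).card : ℝ) * kap ≤ n * kap := mul_le_mul_of_nonneg_right hr hkap.le
      linarith
  have hmeas : ∀ T ⊆ S, ∀ x, MeasurableSet {b : X k | LT T V Gd kap' b x} := by
    intro T hT x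
    rcases T.eq_empty_or_nonempty with rfl | hne
    · have : {b : X k | LT ∅ V Gd kap' b x} = ∅ := by
        ext b
        exact ⟨fun hb => absurd hb LT_empty, fun hb => absurd hb (Set.notMem_empty b)⟩
      rw [this]
      exact MeasurableSet.empty
    · obtain ⟨q, hq, hmax⟩ := Finset.exists_max_image T id hne
      have : {b : X k | LT T V Gd kap' b x} = {b : X k | LonelyP (T.erase q) q V Gd kap' b x} := by
        ext b
        exact LT_iff hq hmax
      rw [this]
      exact meas_LonelyP hMP (h := (by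
        rw [Finset.insert_erase hq]
        exact SDatP_mono h hT : SDatP k (insert q (T.erase q)) V Ge Gd P m τ Ω)) x
  have hmain : mass k (DS S) (fun b x => StarP S V Gd b x ∧ ¬ Rich S V (kap' ^ n * τ) b x) ≤
      ∑ T ∈ S.powerset, mass k (DS S) (fun b x => StarP S V Gd b x ∧
        LT T V Gd kap' (phi (DS S / DS T) (x % (DS S / DS T)) b) (x / (DS S / DS T))) := by
    refine mass_ex _ (fun x hx b hb => ?_)
    obtain ⟨hst, hnr⟩ := hb
    unfold Rich at hnr
    push Not at hnr
    obtain ⟨S', hS', hlt⟩ := hnr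
    obtain ⟨T, hT, hLT⟩ := poor_lonely hCO hNLP hkap' h b x hx hst S' hS' (by
      refine lt_of_lt_of_le hlt (mul_le_mul_of_nonneg_right ?_ hτ0.le)
      refine pow_le_pow_of_le_one hkap'.le hkap'1 ?_
      rw [← hSn]
      exact Finset.card_le_card hS')
    exact ⟨T, Finset.mem_powerset.2 hT, hst, hLT⟩
  have hterm : ∀ T ∈ S.powerset, mass k (DS S) (fun b x => StarP S V Gd b x ∧
        LT T V Gd kap' (phi (DS S / DS T) (x % (DS S / DS T)) b) (x / (DS S / DS T))) ≤ L := by
    intro T hT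
    have hT := Finset.mem_powerset.1 hT
    have h1 := trP_it hMP hCO hTRP (S' := T) (V := V) (Ge := Ge) (Gd := Gd) (P := P) (m := m)
      (τ := τ) (Ω := Ω) (T := LT T V Gd kap') (hmeas T hT) (S \ T)
      Finset.disjoint_sdiff (by rw [Finset.union_sdiff_of_subset hT]; exact h)
    rw [Finset.union_sdiff_of_subset hT] at h1
    exact le_trans h1 (hlone T hT)
  refine le_trans hmain (le_trans (Finset.sum_le_sum hterm) ?_)
  rw [Finset.sum_const, Finset.card_powerset, nsmul_eq_mul, hSn, hL]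
  push_cast
  exact le_of_eq (by ring)

end Pool.Agent.H31.EST
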